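import Pool.Agent.H25.Tent

set_option autoImplicit false

namespace Pool.Agent.Results.MP_ed4848_gt.NotMetrizable

open Pool.Agent.H25.Tent

/-- There is a compact Hausdorff space of countable tightness and a continuous map from a power of
the real line into it whose image is not metrizable. -/
theorem result : ∃ (κ K : Type) (_ : TopologicalSpace K), CompactSpace K ∧ T2Space K ∧
    (∀ (A : Set K) (x : K), x ∈ closure A → ∃ C : Set K, C ⊆ A ∧ C.Countable ∧ x ∈ closure C) ∧
    ∃ φ : (κ → ℝ) → K, Continuous φ ∧ ¬ TopologicalSpace.MetrizableSpace (Set.range φ) := by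
  refine ⟨Fin 3, closure (Set.range ψ), inferInstance, isCompact_iff_compactSpace.1 K_compact,
    inferInstance, fun A x hx => ?_, fun p => ⟨ψ p, subset_closure ⟨p, rfl⟩⟩,
    ψ_cont.subtype_mk _, fun h => ?_⟩
  · rw [closure_subtype] at hx
    obtain ⟨C, c1, c2, c3⟩ := tight (by rintro _ ⟨a, -, rfl⟩; exact a.2) hx
    refine ⟨Subtype.val ⁻¹' C, fun a ha => ?_, c2.preimage Subtype.val_injective, ?_⟩
    · obtain ⟨b, hb, e⟩ := c1 ha
      exact Subtype.val_injective e ▸ hb
    · rw [closure_subtype]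
      refine closure_mono (fun a ha => ?_) c3
      obtain ⟨b, -, rfl⟩ := c1 ha
      exact ⟨b, ha, rfl⟩
  · refine not_fc (Topology.IsInducing.subtypeVal.comp (Topology.IsInducing.subtypeVal
      (t := Set.range fun p => (⟨ψ p, subset_closure ⟨p, rfl⟩⟩ : closure (Set.range ψ))))) ?_
    rintro _ ⟨p, rfl⟩
    exact ⟨⟨_, p, rfl⟩, rfl⟩

end Pool.Agent.Results.MP_ed4848_gt.NotMetrizable
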